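import Pool.Agent.Q62.SP.Stm

set_option autoImplicit false

/-!
# Project SP, job 4: the clock
-/

open MeasureTheory Filter Topology Set
open scoped ContDiff

namespace Pool.Agent.Q38.SP

open Pool.Agent.Q62.SP

theorem t_CLK (hp1 : S_PHI) (hp2 : S_FFP) : S_CLK := by
  obtain ⟨-, -, -, -, -, -, -, hcb⟩ := hp1
  obtain ⟨-, -, -, -, hF, hpos, hlow, hone, -, -⟩ := hp2
  have hFc : Continuous FF := hF.continuous
  have hic : Continuous fun s => 1 / FF s := continuous_const.div hFc fun s => (hpos s).ne'
  obtain ⟨τ, hτ⟩ : ∃ τ : ℝ → ℝ, τ = fun s => ∫ r in (0 : ℝ)..s, 1 / FF r := ⟨_, rfl⟩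
  have hd : ∀ s, HasDerivAt τ (1 / FF s) s := by
    intro s
    rw [hτ]
    exact intervalIntegral.integral_hasDerivAt_right (hic.intervalIntegrable _ _)
      hic.aestronglyMeasurable.stronglyMeasurableAtFilter hic.continuousAt
  have h0 : τ 0 = 0 := by rw [hτ]; simp
  have hcont : Continuous τ := continuous_iff_continuousAt.2 fun s => (hd s).continuousAt
  have hmono : StrictMono τ := strictMono_of_hasDerivAt_pos (f' := fun s => 1 / FF s) hd fun s => by
    have := hpos s
    positivity
  -- the left end
  have hleft : ∀ s, s ≤ -1 → τ s = τ (-1) + (s + 1) := by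
    intro s hs
    have h1 : ∫ r in s..(-1), 1 / FF r = ∫ r in s..(-1), (1 : ℝ) := by
      refine intervalIntegral.integral_congr fun r hr => ?_
      rw [uIcc_of_le hs] at hr
      show 1 / FF r = 1
      rw [hone r hr.2, div_one]
    have h2 : τ s + ∫ r in s..(-1), 1 / FF r = τ (-1) := by
      rw [hτ]
      exact intervalIntegral.integral_add_adjacent_intervals (hic.intervalIntegrable _ _) (hic.intervalIntegrable _ _)
    rw [h1] at h2
    simp at h2
    linarith
  -- bounded
  have hbd : ∀ s, τ s ≤ 4 / cb := by
    intro s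
    have h4 : 0 < 4 / cb := by positivity
    rcases le_or_gt s 0 with hs | hs
    · have := hmono.monotone hs
      linarith
    · have hanti : AntitoneOn (fun r => τ r + 4 / cb * (1 + r)⁻¹) (Ici 0) := by
        have hder : ∀ r : ℝ, 0 ≤ r → HasDerivAt (fun r => τ r + 4 / cb * (1 + r)⁻¹)
            (1 / FF r + 4 / cb * (-1 / (1 + r) ^ 2)) r := by
          intro r hr
          have h1 : HasDerivAt (fun r : ℝ => 1 + r) 1 r := by simpa using (hasDerivAt_id r).const_add 1
          exact (hd r).add ((h1.inv (by linarith)).const_mul _)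
        refine antitoneOn_of_deriv_nonpos (convex_Ici 0) ?_ ?_ ?_
        · intro r hr
          exact (hder r hr).continuousAt.continuousWithinAt
        · intro r hr
          rw [interior_Ici] at hr
          exact (hder r (le_of_lt hr)).differentiableAt.differentiableWithinAt
        · intro r hr
          rw [interior_Ici] at hr
          have hr0 : (0 : ℝ) ≤ r := le_of_lt hr
          rw [(hder r hr0).deriv]
          have h1 := hlow r hr0
          have h2 : 0 < cb / 4 * (1 + r) ^ 2 := by positivity
          have h3 : 1 / FF r ≤ 1 / (cb / 4 * (1 + r) ^ 2) := one_div_le_one_div_of_le h2 h1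
          have h5 : 1 / (cb / 4 * (1 + r) ^ 2) = 4 / cb * (1 / (1 + r) ^ 2) := by
            have : (1 + r) ≠ 0 := by linarith
            field_simp
          rw [h5] at h3
          have h6 : 4 / cb * (-1 / (1 + r) ^ 2) = -(4 / cb * (1 / (1 + r) ^ 2)) := by ring
          rw [h6]
          linarith
      have h1 := hanti (mem_Ici.2 le_rfl) (mem_Ici.2 hs.le) hs.le
      simp only [h0, add_zero, inv_one, mul_one, zero_add] at h1
      have h2 : 0 < 4 / cb * (1 + s)⁻¹ := by positivity
      linarith
  obtain ⟨T, hT⟩ : ∃ T, T = sSup (range τ) := ⟨_, rfl⟩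
  have hB : BddAbove (range τ) := ⟨4 / cb, by rintro _ ⟨s, rfl⟩; exact hbd s⟩
  have hne : (range τ).Nonempty := range_nonempty τ
  have hltT : ∀ s, τ s < T := by
    intro s
    have h1 : τ (s + 1) ≤ T := by
      rw [hT]
      exact le_csSup hB (mem_range_self _)
    exact (hmono (by linarith : s < s + 1)).trans_le h1
  have hT0 : 0 < T := by rw [← h0]; exact hltT 0
  have hsurj : ∀ t, t < T → ∃ s, τ s = t := by
    intro t ht
    have h1 : ∃ s, t ≤ τ s := by
      rw [hT] at ht
      obtain ⟨_, ⟨s, rfl⟩, hs⟩ := exists_lt_of_lt_csSup hne ht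
      exact ⟨s, hs.le⟩
    have h2 : ∃ s, τ s ≤ t := by
      refine ⟨min (-1) (t - τ (-1) - 1), ?_⟩
      rw [hleft _ (min_le_left _ _)]
      have := min_le_right (-1) (t - τ (-1) - 1)
      linarith
    exact mem_range_of_exists_le_of_exists_ge hcont h2 h1
  choose! S hS using hsurj
  have hinv : ∀ s, S (τ s) = s := fun s => hmono.injective (hS _ (hltT s))
  have hScont : ∀ t, t < T → ContinuousAt S t := by
    intro t ht
    refine tendsto_order.2 ⟨fun b hb => ?_, fun b hb => ?_⟩
    · have h1 : τ b < t := by
        rw [← hS t ht]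
        exact hmono hb
      filter_upwards [Ioo_mem_nhds h1 ht] with r hr
      have h2 : τ b < τ (S r) := by
        rw [hS r hr.2]
        exact hr.1
      exact hmono.lt_iff_lt.1 h2
    · have h1 : t < τ b := by
        rw [← hS t ht]
        exact hmono hb
      filter_upwards [Iio_mem_nhds h1, Iio_mem_nhds ht] with r hr hr2
      have h2 : τ (S r) < τ b := by
        rw [hS r hr2]
        exact hr
      exact hmono.lt_iff_lt.1 h2
  have hSd : ∀ t, t < T → HasDerivAt S (FF (S t)) t := by
    intro t ht
    have h1 := HasDerivAt.of_local_left_inverse (hScont t ht) (hd (S t))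
      (by have := hpos (S t); positivity) (by
        filter_upwards [Iio_mem_nhds ht] with r hr
        exact hS r hr)
    rwa [one_div, inv_inv] at h1
  refine ⟨T, S, hT0, ?_, ?_, hSd, ?_, ?_⟩
  · -- smooth
    rw [contDiffOn_infty]
    intro n
    induction n with
    | zero =>
      rw [Nat.cast_zero, contDiffOn_zero]
      intro t ht
      exact (hScont t ht).continuousWithinAt
    | succ n ih =>
      have h1 : ContDiffOn ℝ ((n : ℕ∞ω) + 1) S (Iio T) := by
        rw [contDiffOn_succ_iff_deriv_of_isOpen isOpen_Iio]
        refine ⟨fun t ht => (hSd t ht).differentiableAt.differentiableWithinAt, fun h => ?_, ?_⟩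
        · exact absurd h (by simp)
        · have h2 : ContDiffOn ℝ n (fun t => FF (S t)) (Iio T) := by
            have h3 : ContDiff ℝ n FF := hF.of_le (by exact_mod_cast le_top)
            exact h3.comp_contDiffOn ih
          refine h2.congr fun t ht => ?_
          exact (hSd t ht).deriv
      exact_mod_cast h1
  · have := hinv 0
    rwa [h0] at this
  · intro t ht0 ht
    have h1 : τ 0 ≤ τ (S t) := by
      rw [h0, hS t ht]
      exact ht0
    exact hmono.le_iff_le.1 h1
  · refine tendsto_atTop.2 fun b => ?_
    filter_upwards [Ioo_mem_nhdsLT (hltT b)] with t ht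
    have h2 : τ b < τ (S t) := by
      rw [hS t ht.2]
      exact ht.1
    exact (hmono.lt_iff_lt.1 h2).le

end Pool.Agent.Q38.SP
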