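import Pool.Agent.Q62.SP.Stm

set_option autoImplicit false

/-!
# Project SP, job 3: properties of the weights
-/

open MeasureTheory Filter Topology Set
open scoped ContDiff

namespace Pool.Agent.Q38.SP

open Pool.Agent.Q62.SP

theorem za_pos (n : ℕ) (s : ℝ) : 0 < za n s := by
  unfold za
  positivity

theorem za_le {n : ℕ} {s : ℝ} (h : 11 * Real.exp s ≤ 5 * 2 ^ n) : za n s ≤ 1 / 11 := by
  unfold za
  rw [div_le_div_iff₀ (by positivity) (by norm_num)]
  linarith

theorem exists_pow_ge (s : ℝ) : ∃ N : ℕ, 1 ≤ N ∧ ∀ n : ℕ, N ≤ n → ∀ r : ℝ, r ≤ s → 11 * Real.exp r ≤ 5 * 2 ^ n := by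
  obtain ⟨N, hN⟩ := pow_unbounded_of_one_lt (11 * Real.exp s / 5) (one_lt_two : (1 : ℝ) < 2)
  refine ⟨N + 1, by omega, fun n hn r hr => ?_⟩
  have h1 : (2 : ℝ) ^ N ≤ 2 ^ n := pow_le_pow_right₀ (by norm_num) (by omega)
  have h2 := Real.exp_le_exp.2 hr
  have h3 : 11 * Real.exp s / 5 * 5 < 2 ^ N * 5 := by linarith
  rw [div_mul_cancel₀ _ (by norm_num)] at h3
  linarith

theorem t_FFP (hp1 : S_PHI) (hp2 : S_GGP) : S_FFP := by
  obtain ⟨-, -, -, -, -, -, hca, hcb⟩ := hp1
  obtain ⟨g1, g2, g3, g4, g5⟩ := hp2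
  have H1 : ∀ n, ContDiff ℝ ∞ (GG n) := by
    intro n
    have e1 : ContDiff ℝ ∞ (fun s => za n s) := by
      unfold za
      exact Real.contDiff_exp.div_const _
    have e2 : ContDiff ℝ ∞ (fun s => ((n : ℝ) + 1) ^ 2 * gg (za n s)) := contDiff_const.mul (g1.comp e1)
    have e3 : ContDiff ℝ ∞ (fun s : ℝ => if n = 0 then Real.smoothTransition (-s) else 0) := by
      split_ifs
      · exact Real.smoothTransition.contDiff.comp contDiff_neg
      · exact contDiff_const
    exact e2.add e3
  have H2 : ∀ n s, 0 ≤ GG n s := by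
    intro n s
    unfold GG
    refine add_nonneg (mul_nonneg (sq_nonneg _) (g2 _ (za_pos n s).le)) ?_
    split_ifs
    · exact Real.smoothTransition.nonneg _
    · exact le_rfl
  have H3 : ∀ n s, 1 ≤ n → 11 * Real.exp s ≤ 5 * 2 ^ n → GG n s = 0 := by
    intro n s hn h
    unfold GG
    rw [g3 _ (za_pos n s).le (za_le h), if_neg (by omega)]
    ring
  have H10 : ∀ n s, 0 ≤ s → GG n s = ((n : ℝ) + 1) ^ 2 * gg (za n s) := by
    intro n s hs
    unfold GG
    rw [Real.smoothTransition.zero_of_nonpos (by linarith : -s ≤ 0), ite_self, add_zero]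
  have H4 : ∀ s, Summable (fun n => GG n s) := by
    intro s
    obtain ⟨N, hN1, hN⟩ := exists_pow_ge s
    refine summable_of_ne_finset_zero (s := Finset.range N) fun n hn => ?_
    rw [Finset.mem_range, not_lt] at hn
    exact H3 n s (by omega) (hN n hn s le_rfl)
  have H5 : ContDiff ℝ ∞ FF := by
    rw [contDiff_iff_contDiffAt]
    intro s0
    obtain ⟨N, hN1, hN⟩ := exists_pow_ge (s0 + 1)
    have h1 : ContDiff ℝ ∞ (fun s => ∑ n ∈ Finset.range N, GG n s) := ContDiff.sum fun n _ => H1 n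
    refine h1.contDiffAt.congr_of_eventuallyEq ?_
    filter_upwards [Iio_mem_nhds (by linarith : s0 < s0 + 1)] with s hs
    unfold FF
    refine tsum_eq_sum fun n hn => ?_
    rw [Finset.mem_range, not_lt] at hn
    exact H3 n s (by omega) (hN n hn s (le_of_lt hs))
  have H7 : ∀ s, 0 ≤ s → cb / 4 * (1 + s) ^ 2 ≤ FF s := by
    intro s hs
    have hl : 0 < Real.log 2 := Real.log_pos (by norm_num)
    have hl1 : Real.log 2 ≤ 1 := by
      have := Real.log_two_lt_d9
      linarith
    obtain ⟨n, hn⟩ : ∃ n : ℕ, n = ⌊s / Real.log 2⌋₊ := ⟨_, rfl⟩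
    have h1 : (n : ℝ) ≤ s / Real.log 2 := by
      rw [hn]
      exact Nat.floor_le (by positivity)
    have h2 : s / Real.log 2 < n + 1 := by
      rw [hn]
      exact Nat.lt_floor_add_one _
    have h3 : (2 : ℝ) ^ n ≤ Real.exp s := by
      rw [← Real.rpow_natCast, Real.rpow_def_of_pos (by norm_num)]
      refine Real.exp_le_exp.2 ?_
      rw [le_div_iff₀ hl] at h1
      linarith
    have h4 : Real.exp s ≤ 2 ^ (n + 1) := by
      rw [← Real.rpow_natCast, Real.rpow_def_of_pos (by norm_num)]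
      refine Real.exp_le_exp.2 ?_
      rw [div_lt_iff₀ hl] at h2
      push_cast
      linarith
    have h5 : gg (za n s) = cb := by
      refine g5 _ ?_ ?_
      · unfold za
        rw [div_le_div_iff₀ (by norm_num) (by positivity)]
        linarith
      · unfold za
        rw [div_le_div_iff₀ (by positivity) (by norm_num)]
        rw [pow_succ] at h4
        linarith
    have h6 : ((n : ℝ) + 1) ^ 2 * cb ≤ FF s := by
      have h7 : GG n s = ((n : ℝ) + 1) ^ 2 * cb := by rw [H10 n s hs, h5]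
      rw [← h7]
      exact (H4 s).le_tsum n fun m _ => H2 m s
    have h8 : s ≤ n + 1 := by
      have : s ≤ s / Real.log 2 := by
        rw [le_div_iff₀ hl]
        nlinarith
      linarith
    have h9 : (1 + s) / 2 ≤ n + 1 := by
      have : (0 : ℝ) ≤ n := Nat.cast_nonneg n
      linarith
    have h10 : ((1 + s) / 2) ^ 2 ≤ ((n : ℝ) + 1) ^ 2 := pow_le_pow_left₀ (by linarith) h9 2
    have h11 : ((1 + s) / 2) ^ 2 * cb ≤ ((n : ℝ) + 1) ^ 2 * cb := mul_le_mul_of_nonneg_right h10 hcb.le
    calc cb / 4 * (1 + s) ^ 2 = ((1 + s) / 2) ^ 2 * cb := by ring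
      _ ≤ _ := h11.trans h6
  refine ⟨H1, H2, H3, H4, H5, ?_, H7, ?_, ?_, H10⟩
  · intro s
    rcases lt_or_ge s 0 with hs | hs
    · have h1 : GG 0 s ≤ FF s := (H4 s).le_tsum 0 fun m _ => H2 m s
      have h2 : 0 < GG 0 s := by
        unfold GG
        rw [if_pos rfl]
        exact add_pos_of_nonneg_of_pos (mul_nonneg (sq_nonneg _) (g2 _ (za_pos 0 s).le))
          (Real.smoothTransition.pos_of_pos (by linarith))
      linarith
    · have h1 := H7 s hs
      have h2 : 0 < cb / 4 * (1 + s) ^ 2 := by positivity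
      linarith
  · intro s hs
    have h0 : 11 * Real.exp s ≤ 5 := by
      have h1 := Real.exp_le_exp.2 hs
      have h2 := Real.exp_one_gt_d9
      have h3 : Real.exp (-1) * Real.exp 1 = 1 := by
        rw [← Real.exp_add]
        norm_num
      have h4 : 0 < Real.exp (-1) := Real.exp_pos _
      nlinarith
    have h5 : ∀ n : ℕ, 11 * Real.exp s ≤ 5 * 2 ^ n := by
      intro n
      have : (1 : ℝ) ≤ 2 ^ n := one_le_pow₀ (by norm_num)
      linarith
    unfold FF
    rw [tsum_eq_single 0 fun n hn => H3 n s (by omega) (h5 n)]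
    unfold GG
    rw [g3 _ (za_pos 0 s).le (za_le (h5 0)), if_pos rfl, Real.smoothTransition.one_of_one_le (by linarith)]
    ring
  · intro n s hs hne
    rw [H10 n s hs] at hne
    have hg : gg (za n s) ≠ 0 := right_ne_zero_of_mul hne
    have h1 : 1 / 11 < za n s := by
      by_contra h
      exact hg (g3 _ (za_pos n s).le (not_lt.1 h))
    have h2 : za n s < 1 := by
      by_contra h
      exact hg (g4 _ (not_lt.1 h))
    have hp : (0 : ℝ) < 2 ^ n := by positivity
    have he : Real.exp (-s) * Real.exp s = 1 := by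
      rw [← Real.exp_add]
      simp
    have he0 : 0 < Real.exp (-s) := Real.exp_pos _
    unfold za at h1 h2
    rw [div_lt_div_iff₀ (by norm_num) (by positivity)] at h1
    rw [div_lt_one (by positivity)] at h2
    constructor
    · rw [mul_one_div, lt_div_iff₀ hp]
      nlinarith
    · rw [div_lt_iff₀ hp]
      nlinarith

end Pool.Agent.Q38.SP
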