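import Pool.Agent.Q62.SP.Stm

set_option autoImplicit false

/-!
# Project SP, job 21: Minkowski for a series of functions
-/

open MeasureTheory Filter Topology
open scoped ENNReal
open H459R3.NS (V)

namespace Pool.Agent.Q38.SP

open Pool.Agent.Q62.SP

theorem cs_tsum {u a : ℕ → ℝ} (ha : ∀ n, 0 < a n) (hs : Summable a) (h : Summable fun n => u n ^ 2 / a n) :
    Summable u ∧ (∑' n, u n) ^ 2 ≤ (∑' n, a n) * ∑' n, u n ^ 2 / a n := by
  have h1 : Summable u := by
    refine Summable.of_norm_bounded (g := fun n => (a n + u n ^ 2 / a n) / 2) ((hs.add h).div_const 2) fun n => ?_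
    rw [Real.norm_eq_abs]
    have h2 : u n ^ 2 / a n = |u n| ^ 2 / a n := by rw [sq_abs]
    rw [h2]
    have h3 : 0 ≤ (a n - |u n|) ^ 2 / a n := div_nonneg (sq_nonneg _) (ha n).le
    have h4 : (a n - |u n|) ^ 2 / a n = a n + |u n| ^ 2 / a n - 2 * |u n| := by
      have := (ha n).ne'
      field_simp
      ring
    rw [h4] at h3
    linarith
  refine ⟨h1, ?_⟩
  have h2 : Tendsto (fun N => (∑ n ∈ Finset.range N, u n) ^ 2) atTop (𝓝 ((∑' n, u n) ^ 2)) :=
    h1.hasSum.tendsto_sum_nat.pow 2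
  refine le_of_tendsto h2 (Eventually.of_forall fun N => ?_)
  have h3 : (∑ n ∈ Finset.range N, u n) ^ 2 ≤ (∑ n ∈ Finset.range N, a n) * ∑ n ∈ Finset.range N, u n ^ 2 / a n :=
    Finset.sum_sq_le_sum_mul_sum_of_sq_eq_mul _ (fun n _ => (ha n).le)
      (fun n _ => div_nonneg (sq_nonneg _) (ha n).le) fun n _ => by
        have := (ha n).ne'
        field_simp
  refine h3.trans (mul_le_mul (hs.sum_le_tsum _ fun n _ => (ha n).le)
    (h.sum_le_tsum _ fun n _ => div_nonneg (sq_nonneg _) (ha n).le)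
    (Finset.sum_nonneg fun n _ => div_nonneg (sq_nonneg _) (ha n).le) (tsum_nonneg fun n => (ha n).le))

theorem t_MIN : S_MIN := by
  intro μ _ g a ha hs hg hb
  have hA0 : 0 ≤ ∑' n, a n := tsum_nonneg fun n => (ha n).le
  have hint : ∀ n, Integrable (fun x => g n x ^ 2) μ := fun n => (hg n).integrable_sq
  have hmeas : ∀ n, AEMeasurable (fun x => ENNReal.ofReal (g n x ^ 2 / a n)) μ := fun n =>
    ((hint n).div_const _).aemeasurable.ennreal_ofReal
  -- the integral of the sum
  have hL : ∫⁻ x, ∑' n, ENNReal.ofReal (g n x ^ 2 / a n) ∂μ ≤ ENNReal.ofReal (∑' n, a n) := by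
    rw [lintegral_tsum hmeas, ENNReal.ofReal_tsum_of_nonneg (fun n => (ha n).le) hs]
    refine ENNReal.tsum_le_tsum fun n => ?_
    rw [← ofReal_integral_eq_lintegral_ofReal ((hint n).div_const _)
      (Eventually.of_forall fun x => div_nonneg (sq_nonneg _) (ha n).le)]
    refine ENNReal.ofReal_le_ofReal ?_
    rw [integral_div, div_le_iff₀ (ha n)]
    have := hb n
    nlinarith
  have hfin : ∀ᵐ x ∂μ, ∑' n, ENNReal.ofReal (g n x ^ 2 / a n) < ⊤ :=
    ae_lt_top' (AEMeasurable.ennreal_tsum hmeas) (hL.trans_lt ENNReal.ofReal_lt_top).ne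
  have hsum : ∀ᵐ x ∂μ, Summable fun n => g n x ^ 2 / a n := by
    filter_upwards [hfin] with x hx
    have h1 : Summable fun n => (ENNReal.ofReal (g n x ^ 2 / a n)).toReal := ENNReal.summable_toReal hx.ne
    refine h1.congr fun n => ?_
    exact ENNReal.toReal_ofReal (div_nonneg (sq_nonneg _) (ha n).le)
  have hs1 : ∀ᵐ x ∂μ, Summable fun n => g n x := by
    filter_upwards [hsum] with x hx
    exact (cs_tsum ha hs hx).1
  have hm : AEStronglyMeasurable (fun x => ∑' n, g n x) μ := by
    refine aestronglyMeasurable_of_tendsto_ae (u := atTop) (f := fun N x => ∑ n ∈ Finset.range N, g n x)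
      (fun N => ?_) ?_
    · exact Finset.aestronglyMeasurable_fun_sum _ fun n _ => (hg n).1
    · filter_upwards [hs1] with x hx
      exact hx.hasSum.tendsto_sum_nat
  have hle : ∫⁻ x, ENNReal.ofReal ((∑' n, g n x) ^ 2) ∂μ ≤ ENNReal.ofReal ((∑' n, a n) ^ 2) := by
    have h1 : ∫⁻ x, ENNReal.ofReal ((∑' n, g n x) ^ 2) ∂μ ≤
        ∫⁻ x, ENNReal.ofReal (∑' n, a n) * ∑' n, ENNReal.ofReal (g n x ^ 2 / a n) ∂μ := by
      refine lintegral_mono_ae ?_
      filter_upwards [hsum] with x hx
      rw [← ENNReal.ofReal_tsum_of_nonneg (fun n => div_nonneg (sq_nonneg _) (ha n).le) hx, ← ENNReal.ofReal_mul hA0]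
      exact ENNReal.ofReal_le_ofReal (cs_tsum ha hs hx).2
    refine h1.trans ?_
    rw [lintegral_const_mul'' _ (AEMeasurable.ennreal_tsum hmeas), pow_two, ENNReal.ofReal_mul hA0]
    gcongr
  have hI : Integrable (fun x => (∑' n, g n x) ^ 2) μ := by
    refine ⟨hm.pow 2, ?_⟩
    rw [hasFiniteIntegral_iff_ofReal (Eventually.of_forall fun x => sq_nonneg _)]
    exact hle.trans_lt ENNReal.ofReal_lt_top
  refine ⟨hs1, (memLp_two_iff_integrable_sq hm).2 hI, ?_, fun k hk => ?_⟩
  · rw [integral_eq_lintegral_of_nonneg_ae (Eventually.of_forall fun x => sq_nonneg _) hI.1]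
    refine ENNReal.toReal_le_of_le_ofReal (sq_nonneg _) hle
  · have hk2 : Integrable (fun x => k x ^ 2) μ := hk.integrable_sq
    have hki : ∀ n, Integrable (fun x => k x * g n x) μ := fun n => hk.integrable_mul (hg n)
    have hks : Summable fun n => ∫ x, ‖k x * g n x‖ ∂μ := by
      refine Summable.of_nonneg_of_le (fun n => integral_nonneg fun x => norm_nonneg _) (fun n => ?_)
        (hs.mul_right (((∫ x, k x ^ 2 ∂μ) + 1) / 2))
      have h1 : ∫ x, ‖k x * g n x‖ ∂μ ≤ ∫ x, (a n * k x ^ 2 + g n x ^ 2 / a n) / 2 ∂μ := by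
        refine integral_mono (hki n).norm (((hk2.const_mul _).add ((hint n).div_const _)).div_const _) fun x => ?_
        show ‖k x * g n x‖ ≤ (a n * k x ^ 2 + g n x ^ 2 / a n) / 2
        rw [Real.norm_eq_abs, abs_mul]
        have h3 : 0 ≤ (a n * |k x| - |g n x|) ^ 2 / a n := div_nonneg (sq_nonneg _) (ha n).le
        have h4 : (a n * |k x| - |g n x|) ^ 2 / a n = a n * |k x| ^ 2 + |g n x| ^ 2 / a n - 2 * (|k x| * |g n x|) := by
          have := (ha n).ne'
          field_simp
          ring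
        rw [h4, sq_abs, sq_abs] at h3
        linarith
      refine h1.trans ?_
      rw [integral_div, integral_add (hk2.const_mul _) ((hint n).div_const _), integral_const_mul, integral_div]
      have h5 : (∫ x, g n x ^ 2 ∂μ) / a n ≤ a n := by
        rw [div_le_iff₀ (ha n)]
        have := hb n
        nlinarith
      linarith
    have h6 := hasSum_integral_of_summable_integral_norm hki hks
    refine ⟨h6.summable, ?_⟩
    rw [h6.tsum_eq]
    refine integral_congr_ae (Eventually.of_forall fun x => ?_)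
    exact tsum_mul_left.symm

end Pool.Agent.Q38.SP
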