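import Pool.Agent.Q62.SP.Stm

set_option autoImplicit false

/-!
# Project SP, job 15: functions of the cell coordinates are smooth and periodic
-/

open MeasureTheory Filter Topology Set
open scoped ContDiff
open H459R3.NS (V pd Per)

namespace Pool.Agent.Q38.SP

open Pool.Agent.Q62.SP

theorem xi_add_one (N s : ℝ) : xi N (s + 1) = xi N s := by
  unfold xi
  rw [Int.fract_add_one]

/-- local form of the cell coordinate -/
theorem loc {N : ℝ} (hN : 198 ≤ N) (s0 : ℝ) : ∃ (L : ℝ → ℝ) (c : ℝ), ContDiff ℝ ∞ L ∧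
    (∀ᶠ s in 𝓝 s0, xi N s = L s ∨ (66 ≤ |xi N s| ∧ L s = 66)) ∧ HasDerivAt L c s0 ∧
    ((c = N ∧ L s0 = xi N s0) ∨ (c = 0 ∧ 66 < |xi N s0|)) := by
  rcases (Int.fract_nonneg s0).eq_or_lt with h | h
  · -- an integer
    have h0 : s0 = ⌊s0⌋ := by
      have := Int.floor_add_fract s0
      rw [← h, add_zero] at this
      exact this.symm
    refine ⟨fun _ => 66, 0, contDiff_const, ?_, hasDerivAt_const _ _, Or.inr ⟨rfl, ?_⟩⟩
    · have h1 : Ioo (s0 - 1 / 6) (s0 + 1 / 6) ∈ 𝓝 s0 := Ioo_mem_nhds (by linarith) (by linarith)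
      filter_upwards [h1] with s hs
      refine Or.inr ⟨?_, rfl⟩
      obtain ⟨h2, h3⟩ := hs
      unfold xi
      rcases le_or_gt s0 s with h4 | h4
      · have h5 : ⌊s⌋ = ⌊s0⌋ := by
          rw [Int.floor_eq_iff]
          constructor
          · rw [← h0]; exact h4
          · rw [← h0]; linarith
        have h6 : Int.fract s = s - s0 := by
          rw [Int.fract, h5, ← h0]
        rw [h6, abs_of_neg (by nlinarith)]
        nlinarith
      · have h5 : ⌊s⌋ = ⌊s0⌋ - 1 := by
          rw [Int.floor_eq_iff]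
          push_cast
          constructor
          · rw [← h0]; linarith
          · rw [← h0]; linarith
        have h6 : Int.fract s = s - s0 + 1 := by
          rw [Int.fract, h5]
          push_cast
          rw [← h0]
          ring
        rw [h6, abs_of_pos (by nlinarith)]
        nlinarith
    · unfold xi
      rw [← h, zero_sub, abs_of_neg (by linarith)]
      linarith
  · -- not an integer
    refine ⟨fun s => N * (s - ⌊s0⌋ - 1 / 2), N, by fun_prop, ?_, ?_, Or.inl ⟨rfl, ?_⟩⟩
    · have h1 : Ioo (⌊s0⌋ : ℝ) (⌊s0⌋ + 1) ∈ 𝓝 s0 := by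
        refine Ioo_mem_nhds ?_ (Int.lt_floor_add_one s0)
        have := Int.floor_add_fract s0
        linarith
      filter_upwards [h1] with s hs
      left
      have h5 : ⌊s⌋ = ⌊s0⌋ := by
        rw [Int.floor_eq_iff]
        exact ⟨hs.1.le, hs.2⟩
      unfold xi
      rw [Int.fract, h5]
    · have h1 := (((hasDerivAt_id s0).sub_const (⌊s0⌋ : ℝ)).sub_const (1 / 2 : ℝ)).const_mul N
      simpa using h1
    · unfold xi
      rw [Int.fract]

/-- one variable -/
theorem deriv_xi {N : ℝ} (hN : 198 ≤ N) {g : ℝ → ℝ} (hg : Differentiable ℝ g) (h66 : ∀ a, 66 ≤ |a| → g a = g 66)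
    (r : ℝ) : deriv (fun r => g (xi N r)) r = N * deriv g (xi N r) := by
  obtain ⟨L, c, hL, h1, h2, h3⟩ := loc hN r
  have h4 : (fun r => g (xi N r)) =ᶠ[𝓝 r] fun r => g (L r) := by
    filter_upwards [h1] with s hs
    rcases hs with hs | ⟨hs, hs'⟩
    · rw [hs]
    · rw [h66 _ hs, hs']
  rw [h4.deriv_eq]
  have h5 : HasDerivAt (fun r => g (L r)) (deriv g (L r) * c) r := (hg (L r)).hasDerivAt.comp r h2
  rw [h5.deriv]
  rcases h3 with ⟨h6, h7⟩ | ⟨h6, h7⟩
  · rw [h6, h7, mul_comm]
  · have h8 : g =ᶠ[𝓝 (xi N r)] fun _ => g 66 := by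
      have h9 : ∀ᶠ a in 𝓝 (xi N r), 66 < |a| := (continuous_abs.tendsto _).eventually (lt_mem_nhds h7)
      filter_upwards [h9] with a ha
      exact h66 a ha.le
    rw [h6, h8.deriv_eq, deriv_const]
    ring

/-- partial derivatives as ordinary derivatives -/
theorem pd_eq {G : V → ℝ} (j : Fin 3) (x : V) (hG : DifferentiableAt ℝ G x) :
    pd j G x = deriv (fun r => G (Function.update x j r)) (x j) := by
  have h1 : HasFDerivAt G (fderiv ℝ G x) (Function.update x j (x j)) := by
    rw [Function.update_eq_self]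
    exact hG.hasFDerivAt
  have h2 := h1.comp_hasDerivAt (x j) (hasDerivAt_update x j (x j))
  exact h2.deriv.symm

theorem t_PER : S_PER := by
  intro N hN f hf hfa hfb
  have hsm : ContDiff ℝ ∞ (fun z : ℝ × V => f (xi N (z.2 0)) (xi N (z.2 1)) z.1) := by
    rw [contDiff_iff_contDiffAt]
    intro z0
    obtain ⟨L, c, hL, h1, -, -⟩ := loc hN (z0.2 0)
    obtain ⟨M, d, hM, h2, -, -⟩ := loc hN (z0.2 1)
    have h3 : ContDiff ℝ ∞ (fun z : ℝ × V => f (L (z.2 0)) (M (z.2 1)) z.1) := by
      have e0 : ContDiff ℝ ∞ (fun z : ℝ × V => z.2 0) := (contDiff_apply ℝ ℝ (0 : Fin 3)).comp contDiff_snd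
      have e1 : ContDiff ℝ ∞ (fun z : ℝ × V => z.2 1) := (contDiff_apply ℝ ℝ (1 : Fin 3)).comp contDiff_snd
      exact hf.comp ((hL.comp e0).prodMk ((hM.comp e1).prodMk contDiff_fst))
    refine h3.contDiffAt.congr_of_eventuallyEq ?_
    have c0 : Tendsto (fun z : ℝ × V => z.2 0) (𝓝 z0) (𝓝 (z0.2 0)) :=
      Continuous.tendsto (by fun_prop) z0
    have c1 : Tendsto (fun z : ℝ × V => z.2 1) (𝓝 z0) (𝓝 (z0.2 1)) :=
      Continuous.tendsto (by fun_prop) z0
    filter_upwards [c0.eventually h1, c1.eventually h2] with z hz1 hz2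
    have e1 : f (xi N (z.2 0)) (xi N (z.2 1)) z.1 = f (L (z.2 0)) (xi N (z.2 1)) z.1 := by
      rcases hz1 with hs | ⟨hs, hs'⟩
      · rw [hs]
      · rw [hfa _ _ _ hs, hs']
    rw [e1]
    rcases hz2 with hs | ⟨hs, hs'⟩
    · rw [hs]
    · rw [hfb _ _ _ hs, hs']
  refine ⟨hsm, fun s => ⟨?_, fun x => ?_⟩⟩
  · intro i x
    have h1 : ∀ j : Fin 3, xi N ((x + Pi.single i 1 : V) j) = xi N (x j) := by
      intro j
      rw [Pi.add_apply]
      by_cases h : j = i
      · subst h
        rw [Pi.single_eq_same, xi_add_one]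
      · rw [Pi.single_eq_of_ne h, add_zero]
    show f (xi N ((x + Pi.single i 1 : V) 0)) (xi N ((x + Pi.single i 1 : V) 1)) s = _
    rw [h1, h1]
  · have hd : DifferentiableAt ℝ (fun x : V => f (xi N (x 0)) (xi N (x 1)) s) x := by
      have h1 : ContDiff ℝ ∞ (fun x : V => f (xi N (x 0)) (xi N (x 1)) s) :=
        hsm.comp (contDiff_const.prodMk contDiff_id)
      exact (h1.differentiable (by simp)) x
    have ha : ∀ b, Differentiable ℝ (fun a => f a b s) := by
      intro b
      have h1 : ContDiff ℝ ∞ (fun a => f a b s) := hf.comp (contDiff_id.prodMk (contDiff_const.prodMk contDiff_const))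
      exact h1.differentiable (by simp)
    have hb : ∀ a, Differentiable ℝ (fun b => f a b s) := by
      intro a
      have h1 : ContDiff ℝ ∞ (fun b => f a b s) := hf.comp (contDiff_const.prodMk (contDiff_id.prodMk contDiff_const))
      exact h1.differentiable (by simp)
    refine ⟨?_, ?_, ?_⟩
    · rw [pd_eq 0 x hd, ← deriv_xi hN (ha (xi N (x 1))) (fun a h => hfa a _ s h) (x 0)]
      congr 1
    · rw [pd_eq 1 x hd, ← deriv_xi hN (hb (xi N (x 0))) (fun b h => hfb _ b s h) (x 1)]
      congr 1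
    · rw [pd_eq 2 x hd]
      have h1 : (fun r => f (xi N (Function.update x 2 r 0)) (xi N (Function.update x 2 r 1)) s) =
          fun _ => f (xi N (x 0)) (xi N (x 1)) s := by
        funext r
        rw [Function.update_of_ne (by decide), Function.update_of_ne (by decide)]
      rw [h1, deriv_const]

end Pool.Agent.Q38.SP
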